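import Pool.Agent.Helper94.LK.Spec

/-!
MP_e4073d_mp, part UP: upper bound on even functions for the straight centre, `L` large.
-/

open MeasureTheory Filter Topology Set
open scoped ENNReal InnerProductSpace

namespace Pool.Agent.Helper83.LK

open Pool.Agent.Helper94.LK

/-- `Bil` only sees the kernel where the functions do not vanish. -/
theorem bil_congr {G G' : ℝ → ℝ → ℝ} {f h : ℝ → ℝ}
    (H : ∀ s s', f s ≠ 0 → h s' ≠ 0 → G s s' = G' s s') : Bil G f h = Bil G' f h := by
  unfold Bil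
  refine integral_congr_ae (Filter.Eventually.of_forall fun z => ?_)
  by_cases h1 : f z.1 = 0
  · simp [h1]
  by_cases h2 : h z.2 = 0
  · simp [h2]
  · simp only [H _ _ h1 h2]

/-- translation of `Bil` -/
theorem bil_translate (G : ℝ → ℝ → ℝ) (f h : ℝ → ℝ) (a : ℝ) :
    Bil (fun s s' => G (s - a) (s' - a)) f h = Bil G (fun s => f (s + a)) (fun s => h (s + a)) := by
  unfold Bil
  have := integral_add_right_eq_self (μ := (volume : Measure (ℝ × ℝ)))
    (fun z : ℝ × ℝ => G (z.1 - a) (z.2 - a) * (f z.1 * h z.2)) ((a, a) : ℝ × ℝ)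
  rw [← this]
  simp

/-- reflection of `Bil` -/
theorem bil_reflect (G : ℝ → ℝ → ℝ) (f h : ℝ → ℝ) :
    Bil (fun s s' => G (-s) (-s')) f h = Bil G (fun s => f (-s)) (fun s => h (-s)) := by
  unfold Bil
  have := integral_neg_eq_self (μ := (volume : Measure (ℝ × ℝ)))
    (fun z : ℝ × ℝ => G (-z.1) (-z.2) * (f z.1 * h z.2))
  rw [← this]
  simp

theorem N_translate (f : ℝ → ℝ) (a : ℝ) : N (fun s => f (s + a)) = N f := by
  unfold N
  exact integral_add_right_eq_self (fun s => f s ^ 2) a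

theorem N_reflect (f : ℝ → ℝ) : N (fun s => f (-s)) = N f := by
  unfold N
  exact integral_neg_eq_self (fun s => f s ^ 2) volume

theorem memLp_mul_of_bdd {χ f : ℝ → ℝ} (hc : Continuous χ) (hb : ∀ s, χ s ^ 2 ≤ 1)
    (hf : MemLp f 2 volume) : MemLp (fun s => χ s * f s) 2 volume := by
  refine MemLp.of_le hf (hc.aestronglyMeasurable.mul hf.1) (Eventually.of_forall fun s => ?_)
  rw [norm_mul]
  have : ‖χ s‖ ≤ 1 := by
    rw [Real.norm_eq_abs]
    exact abs_le_one_iff_mul_self_le_one.2 (by nlinarith [hb s])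
  calc ‖χ s‖ * ‖f s‖ ≤ 1 * ‖f s‖ := by gcongr
    _ = ‖f s‖ := one_mul _

theorem up_thm (hP : S_PART) (hI : S_IMS) (hG : S_GEO) (hT : S_TENT) : S_UP := by
  intro v ν hv hν hvf δ hδ
  obtain ⟨C, hC⟩ := hI
  refine ⟨max 1 (√(|C| / δ)), fun L hL => ?_⟩
  have hL1 : 1 ≤ L := le_trans (le_max_left _ _) hL
  have hL0 : 0 < L := by linarith
  have hL2 : C / L ^ 2 ≤ δ := by
    have h1 : √(|C| / δ) ≤ L := le_trans (le_max_right _ _) hL
    have h2 : |C| / δ ≤ L ^ 2 := by
      have := Real.sqrt_le_left (x := |C| / δ) (y := L) hL0.le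
      exact (Real.sqrt_le_left hL0.le).1 h1
    have h3 : |C| ≤ δ * L ^ 2 := by
      rw [div_le_iff₀ hδ] at h2
      linarith
    rw [div_le_iff₀ (by positivity)]
    exact (le_abs_self C).trans h3
  obtain ⟨χ₀, χ₁, hc0, hc1, heven, hsq, hsup1, hsup0, hlip1, hlip0⟩ := hP L hL0
  have hb0 : ∀ s, χ₀ s ^ 2 ≤ 1 := fun s => by
    nlinarith [hsq s, sq_nonneg (χ₁ s), sq_nonneg (χ₁ (-s))]
  have hb1 : ∀ s, χ₁ s ^ 2 ≤ 1 := fun s => by
    nlinarith [hsq s, sq_nonneg (χ₀ s), sq_nonneg (χ₁ (-s))]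
  have hvL : MemLp (fun s => v (s - L)) 2 volume :=
    hv.comp_measurePreserving (measurePreserving_sub_right volume L)
  refine ⟨fun s => χ₁ s * v (s - L), memLp_mul_of_bdd hc1 hb1 hvL, ?_⟩
  intro f hf hfe hfg
  have key := hC L hL1 χ₀ χ₁ hc0 hc1 hsq hlip1 hlip0 f hf
  have m0 : MemLp (fun s => χ₀ s * f s) 2 volume := memLp_mul_of_bdd hc0 hb0 hf
  have m1 : MemLp (fun s => χ₁ s * f s) 2 volume := memLp_mul_of_bdd hc1 hb1 hf
  have m2 : MemLp (fun s => χ₁ (-s) * f s) 2 volume :=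
    memLp_mul_of_bdd (hc1.comp continuous_neg) (fun s => hb1 (-s)) hf
  -- the central part
  have e0 : Bil (GC (crv 1 L)) (fun s => χ₀ s * f s) (fun s => χ₀ s * f s) =
      Bil GS (fun s => χ₀ s * f s) (fun s => χ₀ s * f s) := by
    refine bil_congr fun s s' h1 h2 => ?_
    have a1 : |s| ≤ L := hsup0 s (left_ne_zero_of_mul h1)
    have a2 : |s'| ≤ L := hsup0 s' (left_ne_zero_of_mul h2)
    unfold GC GS
    rw [hG.straight L s s' hL0 a1 a2]
  have b0 : Bil (GC (crv 1 L)) (fun s => χ₀ s * f s) (fun s => χ₀ s * f s) ≤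
      ν * N (fun s => χ₀ s * f s) := by
    rw [e0]
    refine (hT.pos _ m0).trans ?_
    have : 0 ≤ N (fun s => χ₀ s * f s) := integral_nonneg fun s => sq_nonneg _
    exact mul_le_mul_of_nonneg_right hν this
  -- the right part
  have e1 : Bil (GC (crv 1 L)) (fun s => χ₁ s * f s) (fun s => χ₁ s * f s) =
      Bil (GC bnd) (fun s => χ₁ (s + L) * f (s + L)) (fun s => χ₁ (s + L) * f (s + L)) := by
    rw [← bil_translate (GC bnd) (fun s => χ₁ s * f s) (fun s => χ₁ s * f s) L]
    refine bil_congr fun s s' h1 h2 => ?_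
    have a1 : 0 ≤ s := hsup1 s (left_ne_zero_of_mul h1)
    have a2 : 0 ≤ s' := hsup1 s' (left_ne_zero_of_mul h2)
    unfold GC
    rw [hG.bend L s s' hL0 (by linarith) (by linarith)]
  have m1L : MemLp (fun s => χ₁ (s + L) * f (s + L)) 2 volume :=
    m1.comp_measurePreserving (measurePreserving_add_right volume L)
  have b1 : Bil (GC (crv 1 L)) (fun s => χ₁ s * f s) (fun s => χ₁ s * f s) ≤
      ν * N (fun s => χ₁ s * f s) := by
    rw [e1, ← N_translate (fun s => χ₁ s * f s) L]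
    refine hvf _ m1L ?_
    have := integral_add_right_eq_self (μ := (volume : Measure ℝ))
      (fun s => f s * (χ₁ s * v (s - L))) L
    rw [hfg] at this
    rw [← this]
    refine integral_congr_ae (Eventually.of_forall fun s => ?_)
    simp only [add_sub_cancel_right]
    ring
  -- the left part
  have e2 : Bil (GC (crv 1 L)) (fun s => χ₁ (-s) * f s) (fun s => χ₁ (-s) * f s) =
      Bil (GC (crv 1 L)) (fun s => χ₁ s * f s) (fun s => χ₁ s * f s) := by
    have h1 := bil_reflect (GC (crv 1 L)) (fun s => χ₁ s * f s) (fun s => χ₁ s * f s)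
    simp only [hfe] at h1
    rw [← h1]
    refine bil_congr fun s s' _ _ => ?_
    unfold GC
    rw [hG.refl 1 L s s' one_pos le_rfl hL0]
  have e2N : N (fun s => χ₁ (-s) * f s) = N (fun s => χ₁ s * f s) := by
    have h1 := N_reflect (fun s => χ₁ s * f s)
    simp only [hfe] at h1
    exact h1
  have b2 : Bil (GC (crv 1 L)) (fun s => χ₁ (-s) * f s) (fun s => χ₁ (-s) * f s) ≤
      ν * N (fun s => χ₁ (-s) * f s) := by
    rw [e2, e2N]; exact b1
  -- sum of norms
  have i0 : Integrable (fun s => (χ₀ s * f s) ^ 2) := m0.integrable_sq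
  have i1 : Integrable (fun s => (χ₁ s * f s) ^ 2) := m1.integrable_sq
  have i2 : Integrable (fun s => (χ₁ (-s) * f s) ^ 2) := m2.integrable_sq
  have hsum : N (fun s => χ₀ s * f s) + N (fun s => χ₁ s * f s) + N (fun s => χ₁ (-s) * f s) =
      N f := by
    have s1 := integral_add i0 i1
    have s2 := integral_add (i0.add i1) i2
    unfold N
    have s3 : (∫ s, ((χ₀ s * f s) ^ 2 + (χ₁ s * f s) ^ 2 + (χ₁ (-s) * f s) ^ 2)) =
        ∫ s, f s ^ 2 := by
      refine integral_congr_ae (Eventually.of_forall fun s => ?_)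
      have := hsq s
      simp only
      linear_combination (f s ^ 2) * this
    simp only [Pi.add_apply] at s2
    linarith
  have hN : 0 ≤ N f := integral_nonneg fun s => sq_nonneg _
  have hCN : C / L ^ 2 * N f ≤ δ * N f := mul_le_mul_of_nonneg_right hL2 hN
  calc Bil (GC (crv 1 L)) f f ≤ _ := key
    _ ≤ ν * N (fun s => χ₀ s * f s) + ν * N (fun s => χ₁ s * f s) +
        ν * N (fun s => χ₁ (-s) * f s) + δ * N f := by
        gcongr
    _ = (ν + δ) * N f := by rw [← hsum]; ring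

end Pool.Agent.Helper83.LK
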